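import Mathlib

namespace Pool.Agent.Results.MP_4befb3_co.Disproof

/-- A point of the continuous complete graph `Γ(K_n)`: the point of the edge `a b` (`a < b`) at
distance `t` from `a`. A vertex has several such names, at distance `0` from each other. -/
structure Pt (n : ℕ) where
  a : Fin n
  b : Fin n
  hab : a < b
  t : ℝ
  h0 : 0 ≤ t
  h1 : t ≤ 1

variable {n : ℕ}

/-- The distance of two vertices of `K_n`. -/
def dv (x y : Fin n) : ℝ := if x = y then 0 else 1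

/-- The shortest route that leaves the edge of `p` and enters the edge of `q` through endpoints. -/
noncomputable def via (p q : Pt n) : ℝ :=
  min (min (p.t + dv p.a q.a + q.t) (p.t + dv p.a q.b + (1 - q.t)))
    (min ((1 - p.t) + dv p.b q.a + q.t) ((1 - p.t) + dv p.b q.b + (1 - q.t)))

/-- The shortest path distance in `Γ(K_n)`. -/
noncomputable def d (p q : Pt n) : ℝ :=
  if p.a = q.a ∧ p.b = q.b then min |p.t - q.t| (via p q) else via p q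

/-- The closed ball. -/
def ball (p : Pt n) (r : ℝ) : Set (Pt n) := {q | d p q ≤ r}

/-- `Γ(K_n)` is `(r, c)`-colourable. -/
def Colourable (n : ℕ) (r : ℝ) (c : ℕ) : Prop :=
  ∃ 𝓑 : Set (Set (Pt n)), (∀ B ∈ 𝓑, ∃ p, B = ball p r) ∧ (∀ q, ∃ B ∈ 𝓑, q ∈ B) ∧
    ∃ f : Set (Pt n) → Fin c, ∀ B ∈ 𝓑, ∀ B' ∈ 𝓑, B ≠ B' → (B ∩ B').Nonempty → f B ≠ f B'

def Reach (x v : Fin n) (ρ : ℝ) (q : Pt n) : Prop :=
  (q.a = x ∧ q.t ≤ if q.b = v then 1 - ρ else ρ) ∨ (q.b = x ∧ 1 - q.t ≤ if q.a = v then 1 - ρ else ρ)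

lemma exists_ball (x v : Fin n) (hxv : x ≠ v) (ρ : ℝ) (h0 : 0 < ρ) (h1 : ρ ≤ 1 / 2) :
    ∃ p : Pt n, ∀ q, q ∈ ball p (1 / 2) ↔ Reach x v ρ q := by
  rcases lt_or_gt_of_ne hxv with h | h
  · refine ⟨⟨x, v, h, 1 / 2 - ρ, by linarith, by linarith⟩, fun ⟨a, b, hab, t, t0, t1⟩ => ?_⟩
    simp only [ball, d, via, dv, Reach, Set.mem_ofPred_eq]
    by_cases e1 : x = a <;> by_cases e2 : x = b <;> by_cases e3 : v = a <;> by_cases e4 : v = b <;>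
      (try omega) <;>
      simp only [e1, e2, e3, e4, if_true, if_false, and_self, false_and, and_false,
        min_le_iff, abs_le] <;>
      grind
  · refine ⟨⟨v, x, h, 1 / 2 + ρ, by linarith, by linarith⟩, fun ⟨a, b, hab, t, t0, t1⟩ => ?_⟩
    simp only [ball, d, via, dv, Reach, Set.mem_ofPred_eq]
    by_cases e1 : x = a <;> by_cases e2 : x = b <;> by_cases e3 : v = a <;> by_cases e4 : v = b <;>
      (try omega) <;>
      simp only [e1, e2, e3, e4, if_true, if_false, and_self, false_and, and_false,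
        min_le_iff, abs_le] <;>
      grind

def arcs : List (Fin 11 × Fin 11 × ℕ × Fin 5) :=
  [(7, 2, 1, 0), (8, 2, 1, 0), (9, 2, 40, 0), (3, 7, 2, 0), (10, 8, 2, 0), (5, 3, 40, 0), (1, 10, 3, 0), (4, 10, 3, 0), (6, 1, 40, 0), (0, 10, 50, 0), (3, 9, 1, 1), (4, 9, 1, 1), (7, 9, 1, 1), (10, 9, 1, 1), (5, 4, 2, 1), (6, 10, 2, 1), (0, 5, 3, 1), (2, 5, 3, 1), (8, 6, 3, 1), (1, 10, 50, 1), (0, 7, 1, 2), (1, 7, 1, 2), (6, 7, 1, 2), (8, 7, 1, 2), (10, 0, 40, 2), (3, 6, 2, 2), (4, 8, 2, 2), (5, 8, 2, 2), (9, 8, 2, 2), (2, 10, 50, 2), (0, 6, 1, 3), (2, 6, 1, 3), (4, 6, 1, 3), (9, 0, 2, 3), (7, 4, 40, 3), (1, 9, 3, 3), (5, 9, 3, 3), (8, 1, 40, 3), (10, 5, 4, 3), (3, 10, 50, 3), (1, 5, 1, 4), (6, 5, 1, 4), (7, 5, 1, 4), (9, 6, 2, 4), (10, 7, 2, 4), (2, 10, 3, 4), (3, 10, 3, 4), (8, 3, 4, 4), (0, 8, 5, 4), (4, 10, 50, 4)]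

lemma arcs_ok : ∀ A ∈ arcs, A.1 ≠ A.2.1 ∧ 0 < A.2.2.1 ∧ A.2.2.1 ≤ 50 := by decide +kernel

lemma arcs_cover : ∀ a b : Fin 11, a < b → ∃ A ∈ arcs, A.1 = a ∧ ∃ B ∈ arcs, B.1 = b ∧
    ((A.2.1 = b ∧ A.2.2.1 ≤ B.2.2.1) ∨ (B.2.1 = a ∧ B.2.2.1 ≤ A.2.2.1) ∨
      (A.2.2.1 = 50 ∧ B.2.2.1 = 50)) := by decide +kernel

lemma arcs_disj : ∀ A ∈ arcs, ∀ B ∈ arcs, A ≠ B → A.2.2.2 = B.2.2.2 →
    A.1 ≠ B.1 ∧ A.2.2.1 + B.2.2.1 < 100 ∧ (A.2.1 = B.1 → B.2.2.1 < A.2.2.1) := by decide +kernel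

lemma five : Colourable 11 (1 / 2) 5 := by
  classical
  have h : ∀ A ∈ arcs, ∃ p : Pt 11, ∀ q, q ∈ ball p (1 / 2) ↔
      Reach A.1 A.2.1 ((A.2.2.1 : ℝ) / 100) q := fun A hA => by
    obtain ⟨a1, a2, a3⟩ := arcs_ok A hA
    have a2' : (0 : ℝ) < A.2.2.1 := by exact_mod_cast a2
    have a3' : (A.2.2.1 : ℝ) ≤ 50 := by exact_mod_cast a3
    exact exists_ball _ _ a1 _ (by positivity) (by linarith)
  refine ⟨{B | ∃ A ∈ arcs, B = {q | Reach A.1 A.2.1 ((A.2.2.1 : ℝ) / 100) q}}, ?_, ?_,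
    fun B => if h : ∃ A ∈ arcs, B = {q | Reach A.1 A.2.1 ((A.2.2.1 : ℝ) / 100) q} then
      h.choose.2.2.2 else 0, ?_⟩
  · rintro _ ⟨A, hA, rfl⟩
    obtain ⟨p, hp⟩ := h A hA
    exact ⟨p, Set.ext fun q => (hp q).symm⟩
  · intro q
    obtain ⟨A, hA, e1, B, hB, e2, h3⟩ := arcs_cover q.a q.b q.hab
    have a3 : (A.2.2.1 : ℝ) ≤ 50 := by exact_mod_cast (arcs_ok A hA).2.2
    have b3 : (B.2.2.1 : ℝ) ≤ 50 := by exact_mod_cast (arcs_ok B hB).2.2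
    by_cases hq : Reach A.1 A.2.1 ((A.2.2.1 : ℝ) / 100) q
    · exact ⟨_, ⟨A, hA, rfl⟩, hq⟩
    · refine ⟨_, ⟨B, hB, rfl⟩, Or.inr ⟨e2.symm, ?_⟩⟩
      have hq' := fun h => hq (Or.inl ⟨e1.symm, h⟩)
      rcases h3 with ⟨h3, h4⟩ | ⟨h3, h4⟩ | ⟨h3, h4⟩
      · have h4' : (A.2.2.1 : ℝ) ≤ B.2.2.1 := by exact_mod_cast h4
        rw [if_pos h3.symm, imp_false, not_le] at hq'
        split_ifs <;> linarith
      · have h4' : (B.2.2.1 : ℝ) ≤ A.2.2.1 := by exact_mod_cast h4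
        rw [if_pos h3.symm]
        rw [imp_false, not_le] at hq'
        split_ifs at hq' <;> linarith
      · rw [h3, imp_false, not_le] at hq'
        rw [h4]
        push_cast at hq' ⊢
        split_ifs at hq' ⊢ <;> linarith
  · intro B hB B' hB' hne ⟨q, hq, hq'⟩ hc
    simp only [Set.mem_ofPred_eq] at hB hB'
    simp only [dif_pos hB, dif_pos hB'] at hc
    obtain ⟨m1, e1⟩ := hB.choose_spec
    obtain ⟨m2, e2⟩ := hB'.choose_spec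
    generalize hB.choose = A at *
    generalize hB'.choose = C at *
    have hAC : A ≠ C := fun e => hne (by rw [e1, e2, e])
    obtain ⟨c1, c2, c3⟩ := arcs_disj A m1 C m2 hAC hc
    obtain ⟨-, -, c4⟩ := arcs_disj C m2 A m1 hAC.symm hc.symm
    rw [e1] at hq
    rw [e2] at hq'
    have c2' : (A.2.2.1 : ℝ) + C.2.2.1 < 100 := by exact_mod_cast c2
    have c3' : A.2.1 = C.1 → (C.2.2.1 : ℝ) < A.2.2.1 := fun h => by exact_mod_cast c3 h
    have c4' : C.2.1 = A.1 → (A.2.2.1 : ℝ) < C.2.2.1 := fun h => by exact_mod_cast c4 h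
    rcases hq with ⟨u1, u2⟩ | ⟨u1, u2⟩ <;> rcases hq' with ⟨v1, v2⟩ | ⟨v1, v2⟩
    · exact c1 (u1.symm.trans v1)
    · rw [u1] at v2
      rw [v1] at u2
      split_ifs at u2 v2 with g1 g2 g2
      · linarith [c3' g1.symm, c4' g2.symm]
      · linarith [c3' g1.symm]
      · linarith [c4' g2.symm]
      · linarith
    · rw [u1] at v2
      rw [v1] at u2
      split_ifs at u2 v2 with g1 g2 g2
      · linarith [c3' g1.symm, c4' g2.symm]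
      · linarith [c3' g1.symm]
      · linarith [c4' g2.symm]
      · linarith
    · exact c1 (u1.symm.trans v1)

/-- `Γ(K_11)` is `(1/2, 5)`-colourable although `⌈11 / 2⌉ = 6`; so the conjectured formula
`χ_{1/2}(Γ(K_n)) = ⌈n / 2⌉` fails. -/
theorem result : Colourable 11 (1 / 2) 5 ∧
    ¬ ∀ n : ℕ, 2 ≤ n → IsLeast {c | Colourable n (1 / 2) c} ((n + 1) / 2) :=
  ⟨five, fun h => absurd ((h 11 (by norm_num)).2 five) (by norm_num)⟩

end Pool.Agent.Results.MP_4befb3_co.Disproof
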